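import Mathlib
import Pool.Agent.Q256.T7.Res

set_option autoImplicit false

/-!
# Vojta's inequality for all algebraic points of every degree on almost all superelliptic curves

Let `m ≥ 2`, `k ≥ 1`, `d = m k`, and let `F = ∑ c_i X^i Z^(d-i)` run through the binary forms of
degree `d` with integral coefficients of absolute value at most `T`. The curve `X_F` with the
equation `w ^ m = F(a, b)` in the weighted projective plane `P(1, 1, k)` is smooth if `F` has no
multiple factor; its canonical divisor is `d - k - 2` times the pull-back of a point of the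
projective line under `(a : b : w) ↦ (a : b)`. So for a point `P = (a : b : w)` over the number
field `L` and `x = (a : b)` we have `h_K(P) = (d - k - 2) h(x)`, and Vojta's conjecture asserts
`h_K(P) ≤ d(P) + ε h(P) + O(1)`, where `d(P) = log |disc L| / [L : ℚ]` for the field `L = ℚ(P)`.

For `b ≠ 0` the degree of `x` is the degree of the minimal polynomial of `a / b`, and the height
`h(x)` is `NumberField.absLogHeight₁ (a / b)`, the absolute logarithmic height of Mathlib. The point
`(1 : 0)` has degree `1` and height `0`; these are also the degree and the height of `a / 0 = 0`.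
-/

namespace Pool.Agent.Results.MP_9b9442_nt.AllPointsOfSuperellipticCurves

open Finset NumberField

/-- The set of the forms `F` with coefficients of absolute value at most `T` for which the curve
`w ^ m = F(a, b)` has a point `P = (a : b : w)` with `w ≠ 0` over some number field `L`, such that
the degree `r` and the height `h` of `x = (a : b)` satisfy `r ≤ R` and `Q r h`, and such that
`log |disc L| / [L : ℚ]` is smaller than `B r h`. -/
def Exceptional (m d R T : ℕ) (Q : ℕ → ℝ → Prop) (B : ℕ → ℝ → ℝ) : Set (Fin (d + 1) → ℤ) :=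
  {c | (∀ i, |c i| ≤ T) ∧ ∃ (L : Type) (_ : Field L) (_ : NumberField L) (a b w : L),
    (a ≠ 0 ∨ b ≠ 0) ∧ w ≠ 0 ∧ w ^ m = ∑ i, (c i : L) * a ^ (i : ℕ) * b ^ (d - (i : ℕ)) ∧
    (minpoly ℚ (a / b)).natDegree ≤ R ∧ Q (minpoly ℚ (a / b)).natDegree (absLogHeight₁ (a / b)) ∧
    Real.log |(discr L : ℝ)| / Module.finrank ℚ L <
      B (minpoly ℚ (a / b)).natDegree (absLogHeight₁ (a / b))}

/-- **Vojta's inequality for all algebraic points of every degree on almost all superelliptic
curves.** Let `m, k, R ≥ 1`, `d = m k` and `η > 0`. Consider the binary forms `F` of degree `d` with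
integral coefficients in `[-T, T]` and all points `P = (a : b : w)`, `w ≠ 0`, on the curves
`w ^ m = F(a, b)` over all number fields `L`, for which `x = (a : b)` has degree `r ≤ R`; let
`h = h(x)`.
(1) For all but `C T ^ (d + 1 - κ + η)` forms `F` we have for ALL these points with `h ≤ A log T`
`log |disc L| / [L : ℚ] ≥ min ((d - 2 r) h + log T) (((d + 1) / r) log T - (r + 1) h)
  - (κ / r) log T - (k h + (1 / m) (log T + log (d + 1)))`.
(2) Vojta's inequality with `ε = 0` and without a constant: for `κ ≥ 0` and all but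
`C T ^ (d + 1 - κ + η)` forms `F` we have `(d - k - 2) h ≤ log |disc L| / [L : ℚ]` for ALL these
points with `r (2 r - 2) h ≤ (r (1 - 1 / m) - κ) log T` and
`r (d + r - 1) h ≤ (d + 1 - r / m - κ) log T`. -/
theorem result (m k d R : ℕ) (hm : 1 ≤ m) (hk : 1 ≤ k) (hd : d = m * k) (η : ℝ) (hη : 0 < η) :
    (∀ A : ℕ, ∃ C : ℝ, 0 < C ∧ ∀ (T : ℕ) (κ : ℝ), 1 ≤ T →
      ((Exceptional m d R T (fun _ h => h ≤ A * Real.log T)
        (fun r h => min (((d : ℝ) - 2 * r) * h + Real.log T)
          (((d : ℝ) + 1) / r * Real.log T - (r + 1) * h) - κ / r * Real.log T -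
            (k * h + 1 / m * (Real.log T + Real.log (d + 1))))).ncard : ℝ) ≤
        C * (T : ℝ) ^ ((d : ℝ) + 1 - κ + η)) ∧
    (∃ C : ℝ, 0 < C ∧ ∀ (T : ℕ) (κ : ℝ), 1 ≤ T → 0 ≤ κ →
      ((Exceptional m d R T
        (fun r h => (r : ℝ) * (2 * r - 2) * h ≤ (r * (1 - 1 / (m : ℝ)) - κ) * Real.log T ∧
          (r : ℝ) * (d + r - 1) * h ≤ (d + 1 - r / (m : ℝ) - κ) * Real.log T)
        (fun _ h => ((d : ℝ) - k - 2) * h)).ncard : ℝ) ≤
        C * (T : ℝ) ^ ((d : ℝ) + 1 - κ + η)) :=
  ⟨Pool.Agent.Q256.T7.exc_bm m k d R hm hd η hη,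
    Pool.Agent.Q256.T7.exc_vojta m k d R hm hd (by rw [hd]; exact Nat.mul_pos hm hk) η hη⟩

end Pool.Agent.Results.MP_9b9442_nt.AllPointsOfSuperellipticCurves
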