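import Mathlib
import Pool.Agent.Q273.KX.Main

/-!
# Vojta's inequality for the algebraic points of Kummer covers of all hyperplane arrangements, above
points near almost every adelic point

Let `a_0, …, a_{r-1}` be linear forms in `n + 1` variables over a number field `K` which span the
space of linear forms: an arbitrary essential arrangement of hyperplanes in `ℙ^n`, without any
condition on their intersections. Let `M → ℙ^n` be the blow-up of all the flats of the arrangement and
`D_M ⊂ M` the reduced preimage of the arrangement, a divisor with normal crossings. For `m ≥ 1` let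
`X_m → M` be the normalisation of `M` in the field generated by the `m`-th roots of all `a_i / a_j`:
a smooth variety of dimension `n` (`n = 2`: Hirzebruch's surfaces, among them compact ball quotients;
in general position: smooth complete intersections of `r - n - 1` diagonal hypersurfaces of degree
`m` in `ℙ^(r-1)`, for `r = n + 2` diagonal hypersurfaces). Let `D` be the reduced preimage of the
arrangement on `X_m`. The points of `X_m` off `D` over a number field `L` are the
`P = (y_0 : … : y_{r-1})` such that `(y_0 ^ m : … : y_{r-1} ^ m) = (a_0(x) : … : a_{r-1}(x))` for some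
`x ∈ ℙ^n`. We consider all points `P` of all `X_m`, over all number fields, above the `x` in `ℙ^n(K)`:
closed points of degree at most `m ^ (r - 1)` over `K`.

Weil functions. At a place `v`, `max_i log (max_j |y_j| / |y_i|)` is one for `D`, and the largest sum of
local heights `log (|a_i| |x| / |a_i(x)|)` over a linearly independent subfamily of the arrangement is
one for `K_M + D_M + (n + 1) H`, `H` = hyperplane. As `K_{X_m} + D` is the pullback of `K_M + D_M`, the
height `h_K(P)` is the sum over all places of the latter, minus `(n + 1) h(x)`, minus `h_D(P)`.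

The target is an adelic point: `ξ` in `(K ⊗ ℝ)^n` and `η` in the product over all primes `v` of
`O_v^n`; `m_V(x)` is the proximity of `x` to the target at all infinite places and at the primes in `V`.
For almost every target `n m_V(x) ≤ (n + 1 + ε) h(x) + C` for all `x` in `ℙ^n(K)`.
-/

set_option autoImplicit false

open MeasureTheory NumberField IsDedekindDomain LinearAlgebra.Projectivization
open NumberField.mixedEmbedding

namespace Pool.Agent.Results.MP_9b9442_nt.KummerCoversNearAdeles

/-! ### The covers and their heights -/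

/-- The value of the linear form with coefficients `a` at `x`. -/
def lin {K : Type} [Field K] {n : ℕ} (a x : Fin (n + 1) → K) : K := ∑ j, a j * x j

/-- The local height of the hyperplane `a = 0` at `x` for an absolute value. -/
noncomputable def lam {K : Type} [Field K] {n : ℕ} (f : AbsoluteValue K ℝ)
    (a x : Fin (n + 1) → K) : ℝ :=
  Real.log ((⨆ j, f (a j)) * (⨆ j, f (x j)) / f (lin a x))

/-- The largest sum of local heights over a linearly independent subfamily of the arrangement. -/
noncomputable def largest {K : Type} [Field K] {n r : ℕ} (f : AbsoluteValue K ℝ)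
    (a : Fin r → Fin (n + 1) → K) (x : Fin (n + 1) → K) : ℝ :=
  ⨆ I : {I : Finset (Fin r) // LinearIndependent K (fun i : I => a i)}, ∑ i ∈ I.1, lam f (a i) x

/-- The absolute logarithmic height of a point of `ℙ^n(K)`. -/
noncomputable def height {K : Type} [Field K] [NumberField K] {n : ℕ}
    (x : ℙ K (Fin (n + 1) → K)) : ℝ := Real.log x.mulHeight / Module.finrank ℚ K

/-- The height of `x` with respect to `K_M + D_M`. -/
noncomputable def logCanonical {K : Type} [Field K] [NumberField K] {n r : ℕ}
    (a : Fin r → Fin (n + 1) → K) (x : ℙ K (Fin (n + 1) → K)) : ℝ :=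
  (∑ w : InfinitePlace K, (w.mult : ℝ) * largest w.1 a x.rep +
    ∑ᶠ v : HeightOneSpectrum (𝓞 K), largest (FinitePlace.mk v).1 a x.rep) / Module.finrank ℚ K -
    (n + 1) * height x

/-- The local height of `P = (y_0 : … : y_{r-1})` with respect to `D` for an absolute value. -/
noncomputable def weil {L : Type} [Field L] {r : ℕ} (f : AbsoluteValue L ℝ) (y : Fin r → L) : ℝ :=
  ⨆ i, Real.log ((⨆ j, f (y j)) / f (y i))

/-- The height `h_D(P)`. -/
noncomputable def heightD {L : Type} [Field L] [NumberField L] {r : ℕ} (y : Fin r → L) : ℝ :=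
  (∑ w : InfinitePlace L, (w.mult : ℝ) * weil w.1 y +
    ∑ᶠ w : HeightOneSpectrum (𝓞 L), weil (FinitePlace.mk w).1 y) / Module.finrank ℚ L

/-- The proximity function `m_{S, D}(P) = ∑_{v ∈ S ∪ {∞}} λ_{D, v}(P)`. The absolute values are
normalised so that the product formula holds: `|b|_w = N(w) ^ (- w(b))`. -/
noncomputable def proximity (S : Finset ℕ) {L : Type} [Field L] [NumberField L] {r : ℕ}
    (y : Fin r → L) : ℝ :=
  (∑ w : InfinitePlace L, (w.mult : ℝ) * weil w.1 y +
    ∑ᶠ w ∈ {w : HeightOneSpectrum (𝓞 L) | ∃ p ∈ S, (p : 𝓞 L) ∈ w.asIdeal},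
      weil (FinitePlace.mk w).1 y) / Module.finrank ℚ L

/-- The height `h_K(P)` with respect to the canonical divisor of `X_m`. -/
noncomputable def canonicalHeight {K L : Type} [Field K] [NumberField K] [Field L] [NumberField L]
    {n r : ℕ} (a : Fin r → Fin (n + 1) → K) (x : ℙ K (Fin (n + 1) → K)) (y : Fin r → L) : ℝ :=
  logCanonical a x - heightD y

/-- The logarithmic discriminant `log |disc L| / [L : ℚ]`. -/
noncomputable def logDisc (L : Type) [Field L] [NumberField L] : ℝ :=
  Real.log |(discr L : ℝ)| / Module.finrank ℚ L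

/-- `P = (y_0 : … : y_{r-1})` is a point of `X_m` above `x` -/
def Above {K L : Type} [Field K] [Field L] [Algebra K L] {n r : ℕ} (a : Fin r → Fin (n + 1) → K)
    (x : ℙ K (Fin (n + 1) → K)) (m : ℕ) (y : Fin r → L) : Prop :=
  1 ≤ m ∧ ∃ t : L, t ≠ 0 ∧ ∀ i, y i ^ m = t * algebraMap K L (lin (a i) x.rep)

/-! ### The target -/

/-- the group of the integral finite adelic points: the product over all primes `v` of `O_v^n`, with
the product topology -/
abbrev FinAd (K : Type) [Field K] [NumberField K] (n : ℕ) : Type :=
  (v : HeightOneSpectrum (𝓞 K)) → Fin n → v.adicCompletionIntegers K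

/-- the proximity of `x` to the adelic point `p = (ξ, η)` at all infinite places and at the primes in
`V`: `1 / [K : ℚ]` times the sum of `n_w log max (1, 1 / max_j |ξ_j - x_j / x_0|_w)` over the infinite
places `w` and of `log max (1, 1 / max_j |η_j - x_j / x_0|_v)` over the `v ∈ V` -/
noncomputable def prox {K : Type} [Field K] [NumberField K] {n : ℕ}
    (V : Finset (HeightOneSpectrum (𝓞 K))) (p : (Fin n → mixedSpace K) × FinAd K n)
    (x : ℙ K (Fin (n + 1) → K)) : ℝ :=
  (∑ w : InfinitePlace K, (w.mult : ℝ) * Real.log (max 1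
      (⨆ j : Fin n, normAtPlace w (p.1 j - mixedEmbedding K (x.rep j.succ / x.rep 0)))⁻¹) +
    ∑ v ∈ V, Real.log (max 1 (⨆ j : Fin n,
      ‖(p.2 v j : v.adicCompletion K) - FinitePlace.embedding v (x.rep j.succ / x.rep 0)‖)⁻¹)) /
    Module.finrank ℚ K

/-! ### The laws -/

/-- The inequalities (1), (2), (3) for the arrangement `a` -/
def LawArrangement {K : Type} [Field K] [NumberField K] {n r : ℕ} (a : Fin r → Fin (n + 1) → K)
    (V : Finset (HeightOneSpectrum (𝓞 K))) (p : (Fin n → mixedSpace K) × FinAd K n) : Prop :=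
  ∀ ε : ℝ, 0 < ε → ∃ C : ℝ, ∀ x : ℙ K (Fin (n + 1) → K), x.rep 0 ≠ 0 →
    (∀ i, lin (a i) x.rep ≠ 0) → ∀ (m : ℕ) (L : Type) [Field L] [NumberField L] [Algebra K L]
    (y : Fin r → L) (S : Finset ℕ), Above a x m y → (∀ q ∈ S, q.Prime) →
      (n * prox V p x + proximity S y ≤ heightD y +
        (logDisc L - logDisc K) + ∑ q ∈ S, Real.log q + ε * height x + C) ∧
      (logCanonical a x ≤ n * prox V p x →
        proximity S y + canonicalHeight a x y ≤
          (logDisc L - logDisc K) + ∑ q ∈ S, Real.log q + ε * height x + C) ∧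
      (((n : ℝ) + 1 / 2 + ε) * height x ≤ n * prox V p x →
        n * prox V p x + proximity S y + canonicalHeight a x y ≤
          (logDisc L - logDisc K) + ∑ q ∈ S, Real.log q + ε * height x + C)

/-- The exponent. -/
noncomputable def exponent (n r : ℕ) (θ : ℝ) : ℝ :=
  min (θ * (1 - ((r - n).choose (n + 1) : ℝ) / (r.choose (n + 1) : ℝ)))
    (((n : ℝ) + 1) * (1 - (n : ℝ) * ((r : ℝ) - θ) / ((r : ℝ) * ((r : ℝ) - 1))))

/-- The inequality (4) for an arrangement in general position. Here `h(P)` is the height of
`P = (y_0 : … : y_{r-1})` in `ℙ^(r-1)`, `m h(P) = h(x) + O(1)` and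
`h_K(P) = (m (r - n - 1) - r) h(P)`. -/
def LawGeneral {K : Type} [Field K] [NumberField K] {n r : ℕ} (a : Fin r → Fin (n + 1) → K)
    (V : Finset (HeightOneSpectrum (𝓞 K))) (p : (Fin n → mixedSpace K) × FinAd K n) : Prop :=
  ∀ θ c ε : ℝ, 0 ≤ θ → 0 < ε → ∃ E : Set (ℙ K (Fin (n + 1) → K)), E.Finite ∧
    ∀ x : ℙ K (Fin (n + 1) → K), x ∉ E → (∀ i, lin (a i) x.rep ≠ 0) →
      (exponent n r θ + ε) * height x ≤ n * prox V p x →
      ∀ (m : ℕ) (L : Type) [Field L] [NumberField L] [Algebra K L] (y : Fin r → L),
        Above a x m y →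
        (θ * m - r) * (Height.logHeight y / Module.finrank ℚ L) ≤ logDisc L - logDisc K + c

lemma above_abs {K : Type} [Field K] [NumberField K] {L : Type} [Field L] [NumberField L]
    [Algebra K L] {r : ℕ} (S : Finset ℕ) (hS : ∀ p ∈ S, p.Prime) (y : Fin r → L) :
    Pool.Agent.TH905.VF.proxB (Pool.Agent.TH905.VF.above_finite K S hS).toFinset y =
      Module.finrank ℚ K * proximity S y ∧
    Pool.Agent.TH905.VF.hB K y = Module.finrank ℚ K * heightD y ∧
    Pool.Agent.TH905.VF.ld K L = Module.finrank ℚ K * (logDisc L - logDisc K) ∧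
    ∑ v ∈ (Pool.Agent.TH905.VF.above_finite K S hS).toFinset,
      Real.log (Ideal.absNorm v.asIdeal) ≤ Module.finrank ℚ K * ∑ q ∈ S, Real.log q := by
  have hL : (0 : ℝ) < Module.finrank K L := Pool.Agent.TH905.VF.finrank_pos'
  have hd : (0 : ℝ) < Module.finrank ℚ K := by exact_mod_cast Module.finrank_pos
  have htow : (Module.finrank ℚ L : ℝ) = Module.finrank ℚ K * Module.finrank K L := by
    exact_mod_cast (Module.finrank_mul_finrank ℚ K L).symm
  refine ⟨?_, ?_, ?_, ?_⟩
  · unfold Pool.Agent.TH905.VF.proxB proximity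
    rw [Pool.Agent.TH905.VF.above_eq S hS, htow]
    have e1 : ∀ w : HeightOneSpectrum (𝓞 L),
        Pool.Agent.TH905.VF.wm (Pool.Agent.H691R3.fv w) y = weil (FinitePlace.mk w).1 y :=
      fun w => rfl
    have e2 : ∀ w : InfinitePlace L, Pool.Agent.TH905.VF.wm w.1 y = weil w.1 y := fun w => rfl
    simp only [e1, e2]
    rw [mul_div_assoc', mul_div_mul_left _ _ hd.ne']
  · unfold Pool.Agent.TH905.VF.hB heightD
    rw [htow]
    have e1 : ∀ w : HeightOneSpectrum (𝓞 L),
        Pool.Agent.TH905.VF.wm (Pool.Agent.H691R3.fv w) y = weil (FinitePlace.mk w).1 y :=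
      fun w => rfl
    have e2 : ∀ w : InfinitePlace L, Pool.Agent.TH905.VF.wm w.1 y = weil w.1 y := fun w => rfl
    simp only [e1, e2]
    rw [mul_div_assoc', mul_div_mul_left _ _ hd.ne']
  · unfold Pool.Agent.TH905.VF.ld logDisc
    rw [htow]
    field_simp
  · exact Pool.Agent.TH905.VF.sum_above K S hS
      (Pool.Agent.TH905.VF.above_finite K S hS).toFinset fun v hv =>
        (Set.Finite.mem_toFinset (Pool.Agent.TH905.VF.above_finite K S hS)).1 hv

lemma prox_eq {K : Type} [Field K] [NumberField K] {n : ℕ}
    (V : Finset (HeightOneSpectrum (𝓞 K))) (p : (Fin n → mixedSpace K) × FinAd K n)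
    (x : ℙ K (Fin (n + 1) → K)) :
    Q273.AD.prA V p (Q273.MV.aff x) = Module.finrank ℚ K * prox V p x := by
  have hd : (0 : ℝ) < Module.finrank ℚ K := by exact_mod_cast Module.finrank_pos
  have h : prox V p x = Q273.AD.prA V p (Q273.MV.aff x) / Module.finrank ℚ K := by
    unfold Q273.AD.prA
    rw [Q273.AD.prox_eq]
    rfl
  rw [h]
  field_simp

open scoped Classical in
/-- **Vojta's inequality for all points of the Kummer covers of all hyperplane arrangements near
almost every adelic point.** Let `K` be a number field, `n ≥ 1` and `μ` a finite translation invariant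
Borel measure on the compact group `FinAd K n` (a multiple of Haar measure). For almost every adelic
point `p` with respect to the product of Lebesgue measure and `μ`, for all arrangements
`a_0, …, a_{r-1}` of hyperplanes of `ℙ^n` over `K` which span the space of linear forms, all finite sets
`V` of primes and all `ε > 0` there is `C` such that for ALL `x ∈ ℙ^n(K)` off the arrangement, ALL
`m ≥ 1`, ALL number fields `L ⊇ K`, ALL points `P` of `X_m` over `L` above `x` and ALL finite sets `S`
of prime numbers
(1) `n m_V(x) + m_{S,D}(P) ≤ h_D(P) + d_K(P) + ∑_{q ∈ S} log q + ε h(x) + C`, where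
`d_K(P) = d(L) - d(K)`;
(2) if `n m_V(x) ≥ h_{K_M + D_M}(x)`, then
`m_{S,D}(P) + h_K(P) ≤ d_K(P) + ∑_{q ∈ S} log q + ε h(x) + C`;
(3) if `n m_V(x) ≥ (n + 1/2 + ε) h(x)`, then
`n m_V(x) + m_{S,D}(P) + h_K(P) ≤ d_K(P) + ∑_{q ∈ S} log q + ε h(x) + C`.
(4) If every `n + 1` of the `r ≥ n + 1` forms are linearly independent, then for all `θ ≥ 0`, all `c`
and all `ε > 0`, for all but finitely many `x ∈ ℙ^n(K)` off the arrangement with
`n m_V(x) ≥ (exponent n r θ + ε) h(x)`, ALL points `P` of ALL `X_m` above `x` satisfy
`(θ m - r) h(P) ≤ d_K(P) + c`; for `θ = r - n - 1` this is `h_K(P) ≤ d_K(P) + c`. -/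
theorem result (K : Type) [Field K] [NumberField K] (n : ℕ) (hn : 1 ≤ n)
    [MeasurableSpace (FinAd K n)] [BorelSpace (FinAd K n)] (μ : Measure (FinAd K n))
    [IsFiniteMeasure μ] [μ.IsAddLeftInvariant] :
    ∀ᵐ p : (Fin n → mixedSpace K) × FinAd K n ∂(volume.prod μ),
      ∀ (r : ℕ) (a : Fin r → Fin (n + 1) → K) (V : Finset (HeightOneSpectrum (𝓞 K))),
        ((∀ i, a i ≠ 0) → Submodule.span K (Set.range a) = ⊤ → LawArrangement a V p) ∧
        (n + 1 ≤ r → (∀ I : Finset (Fin r), I.card = n + 1 →
          LinearIndependent K (fun i : I => a i)) → LawGeneral a V p) := by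
  have hd : (0 : ℝ) < Module.finrank ℚ K := by exact_mod_cast Module.finrank_pos
  have hht : ∀ x : ℙ K (Fin (n + 1) → K), Real.log x.mulHeight =
      Module.finrank ℚ K * height x := by
    intro x
    unfold height
    field_simp
  filter_upwards [Q273.KX.lawKum hn μ, Q273.KX.lawG hn μ] with p h1 h2
  intro r a V
  refine ⟨fun ha hspan ε hε => ?_, fun hr hgp θ c ε hθ hε => ?_⟩
  · obtain ⟨C, hC⟩ := h1 r a ha hspan V ε hε
    refine ⟨C / Module.finrank ℚ K, fun x _ hx m L _ _ _ y S hab hS => ?_⟩
    obtain ⟨hm, t, ht, hy⟩ := hab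
    obtain ⟨g1, g2⟩ := hC x hx
    obtain ⟨e1, e2, e3, e4⟩ := above_abs (K := K) S hS y
    have k1 := g1 m L y t (Pool.Agent.TH905.VF.above_finite K S hS).toFinset (by omega) ht hy
    rw [e1, e2, e3, prox_eq V p x, hht x] at k1
    have k1' : n * prox V p x + proximity S y - heightD y ≤
        (logDisc L - logDisc K) + ∑ q ∈ S, Real.log q + ε * height x + C / Module.finrank ℚ K := by
      refine le_of_mul_le_mul_left ?_ hd
      have : (Module.finrank ℚ K : ℝ) * (C / Module.finrank ℚ K) = C := by field_simp
      nlinarith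
    have hlc : (Module.finrank ℚ K : ℝ) * logCanonical a x =
        Pool.Agent.Results.MP_9ec3f0_nt.HyperplaneArrangements.hW a x.rep -
          ((n : ℝ) + 1) * (Module.finrank ℚ K * height x) := by
      have : logCanonical a x =
          Pool.Agent.Results.MP_9ec3f0_nt.HyperplaneArrangements.hW a x.rep /
            Module.finrank ℚ K - (n + 1) * height x := rfl
      rw [this]
      field_simp
    refine ⟨by linarith, fun hle => ?_, fun hle => ?_⟩
    · unfold canonicalHeight
      linarith
    · have k2 := g2 (by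
        rw [prox_eq V p x, hht x]
        have := mul_le_mul_of_nonneg_left hle hd.le
        linarith) m L y t (Pool.Agent.TH905.VF.above_finite K S hS).toFinset (by omega) ht hy
      rw [e1, e2, e3, prox_eq V p x, hht x] at k2
      unfold canonicalHeight
      refine le_of_mul_le_mul_left ?_ hd
      have : (Module.finrank ℚ K : ℝ) * (C / Module.finrank ℚ K) = C := by field_simp
      nlinarith
  · refine ⟨_, h2 r hr a hgp ∅ V θ (Module.finrank ℚ K * c) ε hθ hε, ?_⟩
    intro x hx hne hle m L _ _ _ y hab
    obtain ⟨hm, t, ht, hy⟩ := hab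
    by_contra hcon
    push Not at hcon
    apply hx
    refine ⟨hne, ?_, m, L, inferInstance, inferInstance, inferInstance, y, t, by omega, ht, hy, ?_⟩
    · rw [prox_eq V p x, hht x]
      have := mul_le_mul_of_nonneg_left hle hd.le
      have e : Pool.Agent.Results.MP_9ec3f0_nt.HyperplaneExceptions.expo n r θ =
        exponent n r θ := rfl
      rw [e]
      linarith
    · have hyne : ∀ i, y i ≠ 0 := by
        intro i h0
        have h3 := hy i
        rw [h0, zero_pow (by omega)] at h3
        have h4 : algebraMap K L (lin (a i) x.rep) ≠ 0 := by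
          rw [Ne, map_eq_zero]
          exact hne i
        exact mul_ne_zero ht h4 h3.symm
      have h5 := Pool.Agent.TH905.VF.prox_nonneg (k := K) ∅ y hyne
      obtain ⟨-, -, e3, -⟩ := above_abs (K := K) ∅ (by simp) y
      have hL : (0 : ℝ) < Module.finrank K L := Pool.Agent.TH905.VF.finrank_pos'
      have htow : (Module.finrank ℚ L : ℝ) = Module.finrank ℚ K * Module.finrank K L := by
        exact_mod_cast (Module.finrank_mul_finrank ℚ K L).symm
      have e5 : Pool.Agent.TH905.VF.ht K y =
          Module.finrank ℚ K * (Height.logHeight y / Module.finrank ℚ L) := by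
        unfold Pool.Agent.TH905.VF.ht
        rw [htow]
        field_simp
      rw [e3, e5]
      have := mul_lt_mul_of_pos_left hcon hd
      linarith

end Pool.Agent.Results.MP_9b9442_nt.KummerCoversNearAdeles
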