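import Mathlib
import Pool.Agent.Q29.SE.OneNF
import Pool.Agent.Q29.SE.Conv

/-!
# One exceptional set for points given by short sums of power products, over all number fields

Let `X` be a closed subvariety of projective `n`-space over a number field `k` that is not
uniruled, for example a variety of general type of positive dimension. Let `r` and `D` be natural
numbers. We prove that there are one proper closed subset `Z = X ∩ {G = 0}` of `X`, defined over
`k`, and one constant `C` such that for ALL number fields `K` containing `k`, of whatever degree,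
all `H, N ≥ 1` and all `t` in the ring of integers of `K` with
`|Norm t| ^ (1 / [K : ℚ]) ≥ (C H N) ^ C` the following holds. Every point of `X` over `K` outside
`Z` with homogeneous coordinates

  `∑_{l ≤ r} v_l t^(m_l) ∏_i F_i(t)^(e_il)`

(`v_l` vectors of integers of `K` of house at most `H`, arbitrary exponents `m_l`, any number of
polynomials `F_i` over the ring of integers of `K`, of total degree at most `D`, with coefficients
of house at most `H`, whose constant terms are roots of unity, `∑_i e_il ≤ N` for all `l`) has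
homogeneous coordinates that are integers of `K` of house at most `(C H) ^ C`.

So the (absolute) height of such a point is at most `C log (C H)`, whatever `t`, the exponents and
the field `K` are, although the given coordinates can have about `t^δ` digits.

Conversely, if `X` is uniruled, then there are no such `Z` and `C`, for some `r`, even with `D = 0`
and `N = 1`.
-/

set_option autoImplicit false

namespace Pool.Agent.Results.MP_9b9442_nt.PowerProductsOneSet

open Polynomial NumberField

section defs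

variable {n : ℕ}

/-- The ideal of the polynomial ring over `k` generated by the forms in `FF`. -/
noncomputable def ideal {k : Type} [Field k] (FF : Finset (MvPolynomial (Fin (n + 1)) (𝓞 k))) :
    Ideal (MvPolynomial (Fin (n + 1)) k) :=
  Ideal.span ((MvPolynomial.map (algebraMap (𝓞 k) k)) ''
    (FF : Set (MvPolynomial (Fin (n + 1)) (𝓞 k))))

/-- The projective variety over `k` with the prime ideal `I` is uniruled: over some extension field
`L` of `k` there is a nonconstant map `p` from the line to the variety, given by polynomials, such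
that `p(1)` is a generic point of the variety over `k`. -/
def Uniruled {k : Type} [Field k] (I : Ideal (MvPolynomial (Fin (n + 1)) k)) : Prop :=
  ∃ (L : Type) (_ : Field L) (_ : Algebra k L) (p : Fin (n + 1) → Polynomial L),
    (∀ F ∈ I, MvPolynomial.aeval p F = 0) ∧
    (∀ G : MvPolynomial (Fin (n + 1)) k, (∃ e, G.IsHomogeneous e) → G ∉ I →
      MvPolynomial.aeval (fun i => (p i).eval 1) G ≠ 0) ∧
    ∃ i j, p i * Polynomial.C ((p j).eval 1) ≠ p j * Polynomial.C ((p i).eval 1)

/-- Vectors `p` of polynomials of the form `p = ∑ v_l X^(m_l) ∏_i F_i^(e_il)`, `r` terms, where the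
`v_l` are vectors of integers of `K` of house at most `H`, the exponents `m_l` are arbitrary, the
`F_i` (any number of them) are polynomials of total degree at most `D` with integral coefficients
of house at most `H` whose constant terms are roots of unity, and `∑_i e_il ≤ N` for each `l`.
(`house` is the largest absolute value of the conjugates.) -/
def PowerVec {K : Type} [Field K] [NumberField K] (r D N : ℕ) (H : ℝ)
    (p : Fin (n + 1) → (𝓞 K)[X]) : Prop :=
  ∃ (q : ℕ) (F : Fin q → (𝓞 K)[X]) (m : Fin r → ℕ) (e : Fin r → Fin q → ℕ)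
    (v : Fin r → Fin (n + 1) → 𝓞 K), ∑ i, (F i).natDegree ≤ D ∧
    (∀ i, ∃ j, 0 < j ∧ (F i).coeff 0 ^ j = 1) ∧
    (∀ i j, house (algebraMap (𝓞 K) K ((F i).coeff j)) ≤ H) ∧
    (∀ l, ∑ i, e l i ≤ N) ∧ (∀ l i, house (algebraMap (𝓞 K) K (v l i)) ≤ H) ∧
    ∀ i, p i = ∑ l, C (v l i) * (X ^ m l * ∏ j, F j ^ e l j)

/-- The points over `K`, off `G = 0`, of the projective variety over `k` given by the forms in `FF`
which have homogeneous coordinates `p(t)` with `p` as above. -/
def powerPoints {k : Type} [Field k] [NumberField k]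
    (FF : Finset (MvPolynomial (Fin (n + 1)) (𝓞 k))) (G : MvPolynomial (Fin (n + 1)) k)
    (K : Type) [Field K] [NumberField K] [Algebra k K] (t : 𝓞 K) (r D N : ℕ) (H : ℝ) :
    Set (Projectivization K (Fin (n + 1) → K)) :=
  {P | ∃ (p : Fin (n + 1) → (𝓞 K)[X]) (h : (fun i => algebraMap (𝓞 K) K ((p i).eval t)) ≠ 0),
    PowerVec r D N H p ∧
    P = Projectivization.mk K (fun i => algebraMap (𝓞 K) K ((p i).eval t)) h ∧
    (∀ F ∈ FF, MvPolynomial.aeval (fun i => (p i).eval t) F = 0) ∧
    MvPolynomial.aeval (fun i => algebraMap (𝓞 K) K ((p i).eval t)) G ≠ 0}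

/-- The points over `K` with homogeneous coordinates that are algebraic integers of house at
most `B`. -/
def small (K : Type) [Field K] [NumberField K] (n : ℕ) (B : ℝ) :
    Set (Projectivization K (Fin (n + 1) → K)) :=
  {P | ∃ (y : Fin (n + 1) → 𝓞 K) (h : (fun i => algebraMap (𝓞 K) K (y i)) ≠ 0),
    P = Projectivization.mk K (fun i => algebraMap (𝓞 K) K (y i)) h ∧
    ∀ i, house (algebraMap (𝓞 K) K (y i)) ≤ B}

/-- `|Norm t| ^ (1 / [K : ℚ])` is at least `(C H N) ^ C`. -/
def Large {K : Type} [Field K] [NumberField K] (C N : ℕ) (H : ℝ) (t : 𝓞 K) : Prop :=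
  ((C * (H * N)) ^ C) ^ Module.finrank ℚ K ≤ |((Algebra.norm ℤ t : ℤ) : ℝ)|

end defs

theorem norm_nat {K : Type} [Field K] [NumberField K] (t : ℕ) :
    |((Algebra.norm ℤ (t : 𝓞 K) : ℤ) : ℝ)| = (t : ℝ) ^ Module.finrank ℚ K := by
  have h1 : (t : 𝓞 K) = algebraMap ℤ (𝓞 K) (t : ℤ) := by simp
  rw [h1, Algebra.norm_algebraMap, RingOfIntegers.rank]
  push_cast
  rw [abs_pow, Nat.abs_cast]

theorem result (k : Type) [Field k] [NumberField k] (n : ℕ)
    (FF : Finset (MvPolynomial (Fin (n + 1)) (𝓞 k))) (hhom : ∀ F ∈ FF, ∃ e, F.IsHomogeneous e)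
    (hprime : (ideal FF).IsPrime) :
    ¬ Uniruled (ideal FF) ↔ ∀ r D : ℕ,
      ∃ G : MvPolynomial (Fin (n + 1)) k, (∃ e, G.IsHomogeneous e) ∧ G ∉ ideal FF ∧ ∃ C : ℕ,
        ∀ (K : Type) [Field K] [NumberField K] [Algebra k K] (H : ℝ) (N : ℕ) (t : 𝓞 K),
          1 ≤ H → 1 ≤ N → Large C N H t →
          powerPoints FF G K t r D N H ⊆ small K n ((C * H) ^ C) := by
  refine ⟨fun hnu r D => ?_, fun hall hu => ?_⟩
  · obtain ⟨G, hG, hGI, C, h⟩ := Pool.Agent.Q29.SE.one_set k n FF hhom hprime hnu r D
    refine ⟨G, hG, hGI, C, ?_⟩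
    rintro K _ _ _ H N t hH hN ht P ⟨p, h0, hp, rfl, hz, hoff⟩
    obtain ⟨y, hy0, hxy, hyB⟩ := h K H N t hH hN ht (fun i => (p i).eval t)
      ((Pool.Agent.H458.Sp.ne_zero_iff _).mp h0) ⟨p, hp, fun _ => rfl⟩ hz hoff
    exact ⟨y, (Pool.Agent.H458.Sp.ne_zero_iff y).2 hy0,
      Pool.Agent.H458.Sp.mk_eq _ y _ _ hxy, hyB⟩
  · obtain ⟨r, hr⟩ := Pool.Agent.Q29.SE.conv k n FF hhom hu
    obtain ⟨G, hG, hGI, C, hsub⟩ := hall r 0
    obtain ⟨K, iK, iN, iA, H, hH, h⟩ := hr G hG hGI
    obtain ⟨t, htL, p, hp, h0, hz, hoff, hsm⟩ := h ((C * (H * 1)) ^ C) ((C * H) ^ C)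
    have hlarge : Large C 1 H (t : 𝓞 K) := by
      unfold Large
      rw [norm_nat, Nat.cast_one]
      exact pow_le_pow_left₀ (by positivity) htL _
    obtain ⟨y, hy, hP, hyB⟩ := hsub K H 1 t hH le_rfl hlarge
      ⟨p, (Pool.Agent.H458.Sp.ne_zero_iff _).mpr h0, hp, rfl, hz, hoff⟩
    obtain ⟨i, hi⟩ := hsm y ((Pool.Agent.H458.Sp.ne_zero_iff _).mp hy) (by
      obtain ⟨u, hu⟩ := (Projectivization.mk_eq_mk_iff' K _ _ _ _).mp hP
      intro i j
      apply FaithfulSMul.algebraMap_injective (𝓞 K) K
      have h1 := congrFun hu i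
      have h2 := congrFun hu j
      rw [Pi.smul_apply, smul_eq_mul] at h1 h2
      rw [map_mul, map_mul, ← h1, ← h2]
      ring)
    exact absurd (hyB i) (not_le.mpr hi)

end Pool.Agent.Results.MP_9b9442_nt.PowerProductsOneSet
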