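import Mathlib
import Pool.Agent.Q51.UF.Pairs
import Pool.Agent.Q51.HG.Proj
import Pool.Agent.Q51.HG.SmoothCI

set_option autoImplicit false

/-!
# Vojta's inequality for algebraic points of all degrees on all general complete intersections over
all number fields, without exceptional set and uniformly in the variety, at the points with sparse
coordinates

Let `X` be the complete intersection `F 1 = … = F q = 0` in projective `n`-space, `F i` a form of
degree `d i > 0` with algebraic coefficients. Suppose that `2 n + 1 ≤ ∑ (d i + 1)`, or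
`2 n - 1 ≤ ∑ (d i + 1)` and (`q + 5 ≤ n` or `3 n + 3 ≤ 2 ∑ d i + q`) (for hypersurfaces: the degree is
at least `2 n`, or at least `2 n - 2` and `n ≥ 6`). For every `r` there is a nonzero polynomial `h` with
integral coefficients in the coefficients of the forms such that for all forms over all number fields
with `h (F) ≠ 0` (100 percent of the `X` over every number field) the hypersurfaces are smooth and
meet transversally, and such that for every finitely generated group `Γ` of algebraic numbers there
are constants `A` and `e` with the following properties, for ALL these `X` at once: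

* (heights) every algebraic point `P` of `X`, of ANY degree, whose coordinates are of the form
  `∑ u j V j`, `j < r`, where the `u j` have a power in `Γ` and the `V j` are ANY vectors of algebraic
  numbers, satisfies
  `h(P) ≤ A (1 + h(F) + h(V))`,
  `h(F)` the height of the coefficients of the forms and `h(V)` the height of the point with the
  coordinates of all `V j`;
* (Mordell-Lang and Bogomolov property) for all vectors `V j` of algebraic numbers there are at most
  `A (1 + h(F) + h(V)) ^ e` algebraic points of `X` of the form `∑ u j s j V j`, where the `u j` have a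
  power in `Γ` and the height of the point `s` is less than `ε`; here `ε > 0` depends only on `r`
  and the `d i`.

Vojta's inequality for `X` is `h_K(P) ≤ d_k(P) + ε h(P) + O(1)`, with `h_K(P) = (∑ d i - n - 1) h(P)`, for
the points `P` of degree at most `d` over `k` outside a proper closed subset. Here `d_k(P) ≥ 0`, and the
points above satisfy `h_K(P) ≤ A' (1 + h(F) + h(V))`: without discriminant, without the term
`ε h(P)`, without exceptional set, without bound for the degree, and with an explicit dependence on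
the variety.
-/

namespace Pool.Agent.Results.MP_9b9442_nt.UniformAlgebraicPoints

open MvPolynomial
open scoped LinearAlgebra.Projectivization
open Pool.Agent.Helper259.AbsHt

/-- The algebraic numbers. -/
abbrev Qbar : Type := AlgebraicClosure ℚ

/-- The indices of the coefficients of `q` forms of degrees `d i` in `n + 1` variables. -/
abbrev Index (n : ℕ) {q : ℕ} (d : Fin q → ℕ) : Type :=
  (i : Fin q) × {α : Fin (n + 1) →₀ ℕ // α.degree = d i}

/-- The value of the polynomial `h` at the coefficients of the forms `F i`. -/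
noncomputable def valueAt {n q : ℕ} {d : Fin q → ℕ} {K : Type} [Field K]
    (h : MvPolynomial (Index n d) ℤ) (F : Fin q → MvPolynomial (Fin (n + 1)) K) : K :=
  aeval (fun x : Index n d => coeff x.2.1 (F x.1)) h

/-- The range of the degrees. -/
def Range (n : ℕ) {q : ℕ} (d : Fin q → ℕ) : Prop :=
  2 * n + 1 ≤ ∑ i, (d i + 1) ∨
    (2 * n ≤ ∑ i, (d i + 1) + 1 ∧ (q + 5 ≤ n ∨ 3 * n + 3 ≤ 2 * ∑ i, d i + q))

/-- The hypersurfaces `F i = 0` are smooth and meet transversally: in every point of projective space
(over any field `Ω ⊇ K`) the gradients of those `F i` that vanish there are linearly independent. -/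
def Transversal {n q : ℕ} {K : Type} [Field K] (F : Fin q → MvPolynomial (Fin (n + 1)) K) : Prop :=
  ∀ (Ω : Type) [Field Ω] [Algebra K Ω] (x : Fin (n + 1) → Ω), x ≠ 0 →
    LinearIndependent Ω (fun i : {i // aeval x (F i) = 0} => fun k => aeval x (pderiv k (F i.1)))

instance finite_index {n q : ℕ} (d : Fin q → ℕ) : Finite (Index n d) :=
  Pool.Agent.Q51.UF.finite_CI d

/-- The height `h(F)`: the absolute logarithmic height of the point with the projective coordinates
`1` and the coefficients of the forms `F i`. -/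
noncomputable def formsHeight {n q : ℕ} (d : Fin q → ℕ) (F : Fin q → MvPolynomial (Fin (n + 1)) Qbar) : ℝ :=
  absLogHeight (fun o : Option (Index n d) => o.elim (1 : Qbar) (fun x => coeff x.2.1 (F x.1)))

/-- The height `h(V)`: the absolute logarithmic height of the point with the projective coordinates
`V j i`. -/
noncomputable def vectorsHeight {n r : ℕ} (V : Fin r → Fin (n + 1) → Qbar) : ℝ :=
  absLogHeight (fun p : Fin r × Fin (n + 1) => V p.1 p.2)

/-- The points of `X` with the coordinates `∑ u j s j V j`, where the `u j` have a power in `Γ` and the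
height of the point with the projective coordinates `s j` is less than `ε`. -/
def nearPoints {n q r : ℕ} (F : Fin q → MvPolynomial (Fin (n + 1)) Qbar) (Γ : Subgroup Qbarˣ)
    (ε : ℝ) (V : Fin r → Fin (n + 1) → Qbar) : Set (ℙ Qbar (Fin (n + 1) → Qbar)) :=
  {P | ∃ (u : Fin r → Qbarˣ) (s : Fin r → Qbar) (h : (fun i => ∑ j, (u j : Qbar) * s j * V j i) ≠ 0),
    (∀ j, ∃ m : ℕ, 0 < m ∧ u j ^ m ∈ Γ) ∧ absLogHeight s < ε ∧ P = Projectivization.mk Qbar _ h ∧
      ∀ c, aeval (fun i => ∑ j, (u j : Qbar) * s j * V j i) (F c) = 0}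

theorem valueAt_eq {n q : ℕ} {d : Fin q → ℕ} {K : Type} [Field K]
    (h : MvPolynomial (Index n d) ℤ) (F : Fin q → MvPolynomial (Fin (n + 1)) K) :
    valueAt h F = Pool.Agent.Q51.HG.sp d F h := rfl

theorem transversal_of {n q : ℕ} {d : Fin q → ℕ} {h : MvPolynomial (Index n d) ℤ}
    (hh : ∀ (L : Type) [Field L] (F : Fin q → MvPolynomial (Fin (n + 1)) L),
      (∀ i, (F i).IsHomogeneous (d i)) → Pool.Agent.Q51.HG.sp d F h ≠ 0 →
      ∀ x : Fin (n + 1) → L, x ≠ 0 →
      LinearIndependent L (fun i : {i // eval x (F i) = 0} => fun k =>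
        eval x (pderiv k (F i.1))))
    {K : Type} [Field K] (F : Fin q → MvPolynomial (Fin (n + 1)) K)
    (hF : ∀ i, (F i).IsHomogeneous (d i)) (hv : valueAt h F ≠ 0) : Transversal F := by
  intro Ω _ _ x hx
  have h1 := hh Ω (fun i => map (algebraMap K Ω) (F i)) (fun i => (hF i).map _) (by
    rw [Pool.Agent.Q51.HG.sp_map]
    exact (map_ne_zero _).2 hv) x hx
  have h2 : ∀ i k, eval x (pderiv k (map (algebraMap K Ω) (F i))) = aeval x (pderiv k (F i)) := by
    intro i k
    rw [pderiv_map, eval_map, ← aeval_def]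
  have h3 : ∀ i, eval x (map (algebraMap K Ω) (F i)) = aeval x (F i) := by
    intro i
    rw [eval_map, ← aeval_def]
  simp only [h2] at h1
  refine (h1.comp (fun i : {i // aeval x (F i) = 0} => ⟨i.1, by rw [h3]; exact i.2⟩) ?_)
  intro i i' hii
  simpa [Subtype.ext_iff] using hii

/-- **Main theorem.** There are `ε > 0` and a nonzero polynomial `h` such that for all forms `F i` of
degrees `d i` with algebraic coefficients and `h (F) ≠ 0` the hypersurfaces `F i = 0` are smooth and
meet transversally, and such that for every finitely generated group `Γ` of algebraic numbers there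
are `A` and `e` such that for ALL these forms and all vectors `V j` of algebraic numbers:
the algebraic points `x = ∑ u j V j` of `F = 0`, where the `u j` have a power in `Γ`, satisfy
`h(x) ≤ A (1 + h(F) + h(V))`, and there are at most `A (1 + h(F) + h(V)) ^ e` points in
`nearPoints F Γ ε V`. -/
theorem result (n : ℕ) (hn : 1 ≤ n) {q : ℕ} (d : Fin q → ℕ) (hd0 : ∀ i, 0 < d i)
    (hd : Range n d) (r : ℕ) :
    ∃ (ε : ℝ) (h : MvPolynomial (Index n d) ℤ), 0 < ε ∧ h ≠ 0 ∧
      (∀ (K : Type) [Field K] (F : Fin q → MvPolynomial (Fin (n + 1)) K),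
        (∀ i, (F i).IsHomogeneous (d i)) → valueAt h F ≠ 0 → Transversal F) ∧
      ∀ Γ : Subgroup Qbarˣ, Γ.FG → ∃ (A : ℝ) (e : ℕ), 0 ≤ A ∧
        ∀ (F : Fin q → MvPolynomial (Fin (n + 1)) Qbar) (V : Fin r → Fin (n + 1) → Qbar),
          (∀ i, (F i).IsHomogeneous (d i)) → valueAt h F ≠ 0 →
          (∀ u : Fin r → Qbarˣ, (∀ j, ∃ m : ℕ, 0 < m ∧ u j ^ m ∈ Γ) →
            (fun i => ∑ j, (u j : Qbar) * V j i) ≠ 0 →
            (∀ c, aeval (fun i => ∑ j, (u j : Qbar) * V j i) (F c) = 0) →
            absLogHeight (fun i => ∑ j, (u j : Qbar) * V j i) ≤ A * (1 + formsHeight d F + vectorsHeight V)) ∧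
          (nearPoints F Γ ε V).Finite ∧
          ((nearPoints F Γ ε V).ncard : ℝ) ≤ A * (1 + formsHeight d F + vectorsHeight V) ^ e := by
  classical
  have hgm := Pool.Agent.Q51.HG.noGm_range hn d hd0 hd
  obtain ⟨h1, h10, h1s⟩ := Pool.Agent.Q51.HG.gen_snc n d
  obtain ⟨h2, h20, h2s⟩ := Pool.Agent.Q51.HG.gen_noCurP d Finset.univ hgm r
  obtain ⟨D, hD1, hdD⟩ : ∃ D : ℕ, 1 ≤ D ∧ ∀ i, d i ≤ D := ⟨∑ i, d i + 1, by omega, fun i =>
    (Finset.single_le_sum (f := d) (fun _ _ => Nat.zero_le _) (Finset.mem_univ i)).trans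
      (Nat.le_succ _)⟩
  refine ⟨Pool.Agent.Y215.SP.epsn ((D + 1) ^ r) / D / 2, h1 * h2,
    half_pos (div_pos (Pool.Agent.Y215.SP.epsn_pos _ (Nat.one_le_pow _ _ (by omega)))
      (by exact_mod_cast hD1)), mul_ne_zero h10 h20, fun K _ F hF hv => ?_, fun Γ hΓ => ?_⟩
  · rw [valueAt_eq, map_mul] at hv
    exact transversal_of h1s F hF (left_ne_zero_of_mul hv)
  obtain ⟨C, hC0, hC⟩ := Pool.Agent.Q51.UF.proj_heightsU (r := r) d h2 h2s Γ hΓ
  obtain ⟨B, e, hB0, hB⟩ := Pool.Agent.Q51.UF.proj_nearU (r := r) d h2 h2s Γ hΓ D hD1 hdD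
  refine ⟨max C B, e, le_max_of_le_left hC0, fun F V hF hv => ?_⟩
  rw [valueAt_eq, map_mul] at hv
  have hv2 := right_ne_zero_of_mul hv
  have hF0 : 0 ≤ formsHeight d F := absLogHeight_nonneg _
  have hV0 : 0 ≤ vectorsHeight V := absLogHeight_nonneg _
  refine ⟨fun u hu hx0 hx => ?_, ?_⟩
  · refine (hC F u V hF hv2 hu hx0 hx).trans ?_
    exact mul_le_mul_of_nonneg_right (le_max_left _ _) (by
      change 0 ≤ 1 + formsHeight d F + vectorsHeight V
      linarith)
  · obtain ⟨hfin, hcard⟩ := hB F V hF hv2
    have hsub : nearPoints F Γ (Pool.Agent.Y215.SP.epsn ((D + 1) ^ r) / D / 2) V ⊆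
        Pool.Agent.Y215.SK.mixPts F 1 Γ (Pool.Agent.Y215.SP.epsn ((D + 1) ^ r) / D / 2) V := by
      rintro P ⟨u, s, h0, hu, hs, rfl, hx⟩
      have he : Pool.Agent.Y215.SK.psum Finset.univ u (fun j a => s j * V j a) =
          fun i => ∑ j, (u j : Qbar) * s j * V j i := by
        funext i
        unfold Pool.Agent.Y215.SK.psum
        exact Finset.sum_congr rfl fun j _ => by ring
      refine ⟨u, s, hu, hs, ?_, ?_, ?_⟩
      · rw [he]
        exact ⟨h0, hx, by rw [map_one]; exact one_ne_zero⟩
      · rw [he]
        exact h0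
      · congr 1
        exact he.symm
    refine ⟨hfin.subset hsub, ?_⟩
    have h3 := Set.ncard_le_ncard hsub hfin
    refine le_trans (by exact_mod_cast h3) (hcard.trans ?_)
    exact mul_le_mul_of_nonneg_right (le_max_right _ _) (pow_nonneg (by
      change 0 ≤ 1 + formsHeight d F + vectorsHeight V
      linarith) _)

end Pool.Agent.Results.MP_9b9442_nt.UniformAlgebraicPoints
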